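import Mathlib
import Pool.Agent.Y293.FA.Stm3

/-!
# FA2-MAIN: from the theorem for a measure to Hausdorff and packing dimension
-/

set_option autoImplicit false

namespace Pool.Agent.Y319.FA

open MeasureTheory Set Filter Topology Metric
open scoped ENNReal
open Pool.Agent.Y293.FA

noncomputable section

/-- covers in the complex plane -/
def Bx (A : Set ℂ) (t : ℝ) : Prop :=
  ∀ η : ℝ, 0 < η → ∃ C : ℝ, ∀ j : ℕ, ∃ T : Finset ℂ,
    (T.card : ℝ) ≤ C * (2 : ℝ) ^ ((t + η) * j) ∧ A ⊆ ⋃ z ∈ T, closedBall z ((2 : ℝ)⁻¹ ^ j)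

lemma pow_id (s : ℝ) (j : ℕ) : ((2 : ℝ)⁻¹ ^ j) ^ s = (2 : ℝ) ^ (-(s * j)) := by
  rw [inv_pow, ← Real.rpow_natCast, ← Real.rpow_neg (by norm_num : (0 : ℝ) ≤ 2),
    ← Real.rpow_mul (by norm_num : (0 : ℝ) ≤ 2)]
  congr 1
  ring

/-- the Hausdorff dimension is at most the box dimension -/
lemma dim_le (hF : S_FRO) {A : Set ℂ} (hA : IsCompact A) {t : ℝ} (hB : Bx A t) {s : ℝ}
    (hs : 0 ≤ s) (hd : ENNReal.ofReal s < dimH A) : s ≤ t := by
  by_contra hcon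
  push Not at hcon
  set η : ℝ := (s - t) / 2 with hη
  have hη0 : 0 < η := by rw [hη]; linarith
  obtain ⟨C, hC⟩ := hB η hη0
  obtain ⟨μ, hμ, hμA, D, hD, hFr⟩ := hF A hA s hs hd
  have h1A : μ A = 1 := by
    rwa [prob_compl_eq_zero_iff hA.measurableSet] at hμA
  have key : ∀ j : ℕ, (1 : ℝ) ≤ C * D * ((2 : ℝ) ^ (-η)) ^ j := by
    intro j
    obtain ⟨T, hT, hAT⟩ := hC j
    have h2 : (1 : ℝ≥0∞) ≤ ENNReal.ofReal (T.card * (D * ((2 : ℝ)⁻¹ ^ j) ^ s)) := by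
      rw [← h1A]
      calc μ A ≤ μ (⋃ z ∈ T, closedBall z ((2 : ℝ)⁻¹ ^ j)) := measure_mono hAT
        _ ≤ ∑ z ∈ T, μ (closedBall z ((2 : ℝ)⁻¹ ^ j)) := measure_biUnion_finset_le _ _
        _ ≤ ∑ z ∈ T, ENNReal.ofReal (D * ((2 : ℝ)⁻¹ ^ j) ^ s) :=
            Finset.sum_le_sum fun z _ => hFr z _ (by positivity)
        _ = ENNReal.ofReal (T.card * (D * ((2 : ℝ)⁻¹ ^ j) ^ s)) := by
            rw [Finset.sum_const, nsmul_eq_mul,
              ENNReal.ofReal_mul (p := (T.card : ℝ)) (by positivity), ENNReal.ofReal_natCast]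
    rw [ENNReal.one_le_ofReal] at h2
    refine h2.trans ?_
    have h3 : (T.card : ℝ) * (D * ((2 : ℝ)⁻¹ ^ j) ^ s) ≤
        C * (2 : ℝ) ^ ((t + η) * j) * (D * ((2 : ℝ)⁻¹ ^ j) ^ s) :=
      mul_le_mul_of_nonneg_right hT (by positivity)
    refine h3.trans (le_of_eq ?_)
    rw [pow_id]
    have h4 : (2 : ℝ) ^ ((t + η) * j) * (2 : ℝ) ^ (-(s * j)) = ((2 : ℝ) ^ (-η)) ^ j := by
      rw [← Real.rpow_add (by norm_num), ← Real.rpow_natCast, ← Real.rpow_mul (by norm_num)]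
      congr 1
      rw [hη]
      ring
    rw [← h4]
    ring
  have hr : (2 : ℝ) ^ (-η) < 1 := Real.rpow_lt_one_of_one_lt_of_neg (by norm_num) (by linarith)
  have ht : Tendsto (fun j : ℕ => C * D * ((2 : ℝ) ^ (-η)) ^ j) atTop (𝓝 (C * D * 0)) :=
    (tendsto_pow_atTop_nhds_zero_of_lt_one (by positivity) hr).const_mul _
  rw [mul_zero] at ht
  have h5 : (1 : ℝ) ≤ 0 := ge_of_tendsto' ht key
  linarith

lemma floor_close {a b : ℝ} (h : |a - b| ≤ 1) : ⌊a⌋ - ⌊b⌋ ∈ Finset.Icc (-1 : ℤ) 1 := by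
  rw [abs_le] at h
  have h1 : ⌊a⌋ ≤ ⌊b⌋ + 1 := by
    rw [← Int.floor_add_one]
    exact Int.floor_le_floor (by linarith)
  have h2 : ⌊b⌋ ≤ ⌊a⌋ + 1 := by
    rw [← Int.floor_add_one]
    exact Int.floor_le_floor (by linarith)
  rw [Finset.mem_Icc]
  constructor <;> omega

/-- the dyadic squares which meet the set -/
lemma cells {A : Set ℂ} {t C : ℝ} (hC : ∀ j : ℕ, ∃ T : Finset ℂ,
    (T.card : ℝ) ≤ C * (2 : ℝ) ^ (t * j) ∧ A ⊆ ⋃ z ∈ T, closedBall z ((2 : ℝ)⁻¹ ^ j)) :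
    ∃ I : ℕ → Finset (ℤ × ℤ), (∀ k, ((I k).card : ℝ) ≤ 9 * C * (2 : ℝ) ^ (t * k)) ∧
      ∀ k, ∀ y ∈ A, qi k y ∈ I k := by
  classical
  choose T hT hA using hC
  refine ⟨fun k => (T k).biUnion fun z => (Finset.Icc (-1 : ℤ) 1 ×ˢ Finset.Icc (-1 : ℤ) 1).image
    fun p => (p.1 + (qi k z).1, p.2 + (qi k z).2), fun k => ?_, fun k y hy => ?_⟩
  · have h1 : ((T k).biUnion fun z => (Finset.Icc (-1 : ℤ) 1 ×ˢ Finset.Icc (-1 : ℤ) 1).image
        fun p => (p.1 + (qi k z).1, p.2 + (qi k z).2)).card ≤ (T k).card * 9 := by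
      refine Finset.card_biUnion_le_card_mul _ _ _ fun z _ => ?_
      refine Finset.card_image_le.trans ?_
      rw [Finset.card_product]
      simp
    have h2 : (((T k).biUnion fun z => (Finset.Icc (-1 : ℤ) 1 ×ˢ Finset.Icc (-1 : ℤ) 1).image
        fun p => (p.1 + (qi k z).1, p.2 + (qi k z).2)).card : ℝ) ≤ (T k).card * 9 := by
      exact_mod_cast h1
    have h3 := hT k
    linarith
  · have h1 := hA k hy
    rw [mem_iUnion₂] at h1
    obtain ⟨z, hz, h2⟩ := h1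
    rw [mem_closedBall, dist_eq_norm] at h2
    have h3 : ∀ u : ℝ, |u| ≤ ‖y - z‖ → |(2 : ℝ) ^ k * u| ≤ 1 := by
      intro u hu
      rw [abs_mul, abs_of_pos (by positivity : (0 : ℝ) < 2 ^ k)]
      calc (2 : ℝ) ^ k * |u| ≤ 2 ^ k * (2 : ℝ)⁻¹ ^ k := by
            exact mul_le_mul_of_nonneg_left (hu.trans h2) (by positivity)
        _ = 1 := by rw [← mul_pow]; norm_num
    rw [Finset.mem_biUnion]
    refine ⟨z, hz, Finset.mem_image.2 ⟨((qi k y).1 - (qi k z).1, (qi k y).2 - (qi k z).2), ?_, ?_⟩⟩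
    · rw [Finset.mem_product]
      constructor
      · refine floor_close (a := (2 : ℝ) ^ k * y.re) (b := (2 : ℝ) ^ k * z.re) ?_
        rw [← mul_sub]
        exact h3 _ (by rw [← Complex.sub_re]; exact Complex.abs_re_le_norm _)
      · refine floor_close (a := (2 : ℝ) ^ k * y.im) (b := (2 : ℝ) ^ k * z.im) ?_
        rw [← mul_sub]
        exact h3 _ (by rw [← Complex.sub_im]; exact Complex.abs_im_le_norm _)
    · ext <;> simp

/-- the theorem in the complex plane -/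
lemma core_C (hF : S_FRO) (hCo : S_CORE) {A : Set ℂ} (hA : IsCompact A) {t : ℝ} (hB : Bx A t)
    (hd : ENNReal.ofReal (2 * t + 1) < 3 * dimH A) :
    ∃ x ∈ A, 0 < volume {r : ℝ | ∃ y ∈ A, r = dist x y} := by
  have h2 : dimH A ≤ 2 := by
    refine (dimH_mono (subset_univ A)).trans ?_
    rw [Real.dimH_univ_eq_finrank, Complex.finrank_real_complex]
    norm_num
  have htop : dimH A ≠ ⊤ := (h2.trans_lt (by norm_num)).ne
  set d : ℝ := (dimH A).toReal with hdd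
  have hdA : dimH A = ENNReal.ofReal d := (ENNReal.ofReal_toReal htop).symm
  have hd2 : d ≤ 2 := by
    have := ENNReal.toReal_mono (by norm_num) h2
    simpa using this
  have h3 : (3 : ℝ≥0∞) * dimH A = ENNReal.ofReal (3 * d) := by
    rw [hdA, ENNReal.ofReal_mul (by norm_num)]
    norm_num
  rw [h3, ENNReal.ofReal_lt_ofReal_iff'] at hd
  obtain ⟨hd1, hd0⟩ := hd
  have hdp : 0 < d := by linarith
  have hdt : d ≤ t := by
    refine le_of_forall_lt_imp_le_of_dense fun s hs => ?_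
    by_cases hs0 : 0 ≤ s
    · refine dim_le hF hA hB hs0 ?_
      rw [hdA]
      exact (ENNReal.ofReal_lt_ofReal_iff hdp).2 hs
    · push Not at hs0
      have h4 : (0 : ℝ) ≤ t := by
        refine dim_le hF hA hB le_rfl ?_
        rw [hdA]
        exact (ENNReal.ofReal_lt_ofReal_iff hdp).2 hdp
      linarith
  have ht1 : 1 < t := by linarith
  set s : ℝ := ((2 * t + 1) / 3 + d) / 2 with hs
  have hs1 : 2 * t + 1 < 3 * s := by rw [hs]; linarith
  have hsd : s < d := by rw [hs]; linarith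
  obtain ⟨μ, hμ, hμA, D, hD, hFr⟩ := hF A hA s (by linarith) (by
    rw [hdA]
    exact (ENNReal.ofReal_lt_ofReal_iff hdp).2 hsd)
  set η : ℝ := (3 * s - 2 * t - 1) / 4 with hη
  have hη0 : 0 < η := by rw [hη]; linarith
  obtain ⟨C, hC⟩ := hB η hη0
  obtain ⟨I, hI, hIA⟩ := cells hC
  refine hCo A hA μ hμA (max (9 * C) D) s (t + η) I (lt_max_of_lt_right hD) (by linarith)
    (by linarith) ?_ ?_ hIA ?_
  · intro x r hr
    refine (hFr x r hr).trans (ENNReal.ofReal_le_ofReal ?_)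
    exact mul_le_mul_of_nonneg_right (le_max_right _ _) (by positivity)
  · intro k
    refine (hI k).trans ?_
    exact mul_le_mul_of_nonneg_right (le_max_left _ _) (by positivity)
  · rw [hη]
    linarith

/-- the theorem for sets of small box dimension -/
lemma core_E (hF : S_FRO) (hCo : S_CORE) {A : Set (EuclideanSpace ℝ (Fin 2))}
    (hA : IsCompact A) {t : ℝ} (hB : BoxLE A t) (hd : ENNReal.ofReal (2 * t + 1) < 3 * dimH A) :
    ∃ x ∈ A, 0 < volume {r : ℝ | ∃ y ∈ A, r = dist x y} := by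
  classical
  let φ : EuclideanSpace ℝ (Fin 2) ≃ₗᵢ[ℝ] ℂ := Complex.orthonormalBasisOneI.repr.symm
  have hB' : Bx (φ '' A) t := by
    intro η hη
    obtain ⟨C, hC⟩ := hB η hη
    refine ⟨C, fun j => ?_⟩
    obtain ⟨T, hT, hAT⟩ := hC j
    refine ⟨T.image φ, ?_, ?_⟩
    · refine le_trans ?_ hT
      exact_mod_cast Finset.card_image_le
    · rintro _ ⟨a, ha, rfl⟩
      have h1 := hAT ha
      rw [mem_iUnion₂] at h1
      obtain ⟨z, hz, h2⟩ := h1
      rw [mem_iUnion₂]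
      refine ⟨φ z, Finset.mem_image_of_mem _ hz, ?_⟩
      rw [mem_closedBall, φ.dist_map]
      exact h2
  obtain ⟨x, ⟨x0, hx0, rfl⟩, hx⟩ := core_C hF hCo (hA.image φ.continuous) hB' (by
    rw [φ.isometry.dimH_image]
    exact hd)
  refine ⟨x0, hx0, ?_⟩
  have h3 : {r : ℝ | ∃ y ∈ φ '' A, r = dist (φ x0) y} = {r : ℝ | ∃ y ∈ A, r = dist x0 y} := by
    ext r
    constructor
    · rintro ⟨_, ⟨y, hy, rfl⟩, hr⟩
      exact ⟨y, hy, by rw [hr, φ.dist_map]⟩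
    · rintro ⟨y, hy, hr⟩
      exact ⟨φ y, ⟨y, hy, rfl⟩, by rw [hr, φ.dist_map]⟩
  rwa [h3] at hx

/-- **FA2-MAIN.** -/
theorem main2 : S_FRO → S_CORE → S_MAIN2 := by
  intro hF hCo A t hA hP hd
  obtain ⟨B, hAB, hB⟩ := hP
  have hU : A = ⋃ i, A ∩ closure (B i) := by
    rw [← inter_iUnion]
    refine (inter_eq_left.2 (hAB.trans ?_)).symm
    exact iUnion_mono fun i => subset_closure
  rw [hU, dimH_iUnion, ENNReal.mul_iSup, lt_iSup_iff] at hd
  obtain ⟨i, hi⟩ := hd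
  have hAi : IsCompact (A ∩ closure (B i)) := hA.inter_right isClosed_closure
  have hBi : BoxLE (A ∩ closure (B i)) t := by
    intro η hη
    obtain ⟨C, hC⟩ := hB i η hη
    refine ⟨C, fun j => ?_⟩
    obtain ⟨T, hT, hAT⟩ := hC j
    refine ⟨T, hT, inter_subset_right.trans (closure_minimal hAT ?_)⟩
    exact T.finite_toSet.isClosed_biUnion fun z _ => isClosed_closedBall
  obtain ⟨x, hx, hv⟩ := core_E hF hCo hAi hBi hi
  refine ⟨x, hx.1, hv.trans_le (measure_mono ?_)⟩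
  rintro r ⟨y, hy, hr⟩
  exact ⟨y, hy.1, hr⟩

end

end Pool.Agent.Y319.FA
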